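import Pool.Agent.L0h65.SB

/-!
# Minimal strongly biconnected digraphs

A digraph on the finite vertex set `V` is given by its finite set `E` of arcs, without loops; the two
opposite arcs may both be present. We prove that a minimal strongly biconnected digraph on `n ≥ 3`
vertices has at most `2n - 3` arcs (so at most `2n` arcs for every `n`), and that `2n - 3` is attained
for every `n ≥ 3`.
-/

set_option autoImplicit false

namespace Pool.Agent.Results.MP_5e4462_co.ExactMaximum

open Relation

variable {V : Type}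

/-- There is a directed walk from every vertex to every vertex. -/
def StronglyConnected (E : Finset (V × V)) : Prop :=
  ∀ u v : V, ReflTransGen (fun a b => (a, b) ∈ E) u v

/-- The underlying undirected simple graph: distinct `u`, `v` are adjacent when `(u, v)` or `(v, u)`
is an arc. -/
def underlying (E : Finset (V × V)) : SimpleGraph V := SimpleGraph.fromRel (fun a b => (a, b) ∈ E)

/-- Strongly connected, and the deletion of any vertex does not disconnect the underlying graph. -/
def StronglyBiconnected (E : Finset (V × V)) : Prop :=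
  StronglyConnected E ∧ ∀ w : V, ((underlying E).induce {w}ᶜ).Preconnected

/-- Strongly biconnected, but not after the deletion of any arc. -/
def MinimalStronglyBiconnected [DecidableEq V] (E : Finset (V × V)) : Prop :=
  StronglyBiconnected E ∧ ∀ e ∈ E, ¬ StronglyBiconnected (E.erase e)

lemma und_iff [DecidableEq V] (E : Finset (V × V)) (hloop : ∀ v, (v, v) ∉ E) (w : V)
    (a b : ({w}ᶜ : Set V)) :
    ((underlying E).induce {w}ᶜ).Adj a b ↔ Pool.Agent.L0h65.SB.Und E w a.1 b.1 := by
  have ha : a.1 ≠ w := a.2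
  have hb : b.1 ≠ w := b.2
  unfold underlying Pool.Agent.L0h65.SB.Und
  rw [SimpleGraph.comap_adj, SimpleGraph.fromRel_adj]
  constructor
  · rintro ⟨_, h⟩
    exact ⟨h, ha, hb⟩
  · rintro ⟨h, _, _⟩
    refine ⟨?_, h⟩
    intro e
    change a.1 = b.1 at e
    rw [e] at h
    exact hloop _ (h.elim id id)

lemma bi_iff [DecidableEq V] (E : Finset (V × V)) (hloop : ∀ v, (v, v) ∉ E) (w : V) :
    ((underlying E).induce {w}ᶜ).Preconnected ↔
      ∀ u v, u ≠ w → v ≠ w → ReflTransGen (Pool.Agent.L0h65.SB.Und E w) u v := by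
  constructor
  · intro h u v hu hv
    have h1 := (SimpleGraph.reachable_iff_reflTransGen _ _).mp (h ⟨u, hu⟩ ⟨v, hv⟩)
    have h2 : ∀ a b : ({w}ᶜ : Set V), ReflTransGen ((underlying E).induce {w}ᶜ).Adj a b →
        ReflTransGen (Pool.Agent.L0h65.SB.Und E w) a.1 b.1 := by
      intro a b hab
      induction hab with
      | refl => exact .refl
      | tail _ h2 ih => exact ih.tail ((und_iff E hloop w _ _).mp h2)
    exact h2 _ _ h1
  · intro h a b
    rw [SimpleGraph.reachable_iff_reflTransGen]
    have h1 := h a.1 b.1 a.2 b.2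
    have h2 : ∀ x y, ReflTransGen (Pool.Agent.L0h65.SB.Und E w) x y → ∀ hx : x ≠ w, ∃ hy : y ≠ w,
        ReflTransGen ((underlying E).induce {w}ᶜ).Adj ⟨x, hx⟩ ⟨y, hy⟩ := by
      intro x y hxy hx
      induction hxy with
      | refl => exact ⟨hx, .refl⟩
      | tail _ h2 ih =>
        obtain ⟨hy, ih⟩ := ih
        exact ⟨h2.2.2, ih.tail ((und_iff E hloop w _ _).mpr h2)⟩
    obtain ⟨_, h3⟩ := h2 a.1 b.1 h1 a.2
    exact h3

lemma sb_iff [DecidableEq V] (E : Finset (V × V)) (hloop : ∀ v, (v, v) ∉ E) :
    StronglyBiconnected E ↔ (∀ u v, ReflTransGen (Pool.Agent.L0h65.SB.Arc E) u v) ∧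
      ∀ w u v, u ≠ w → v ≠ w → ReflTransGen (Pool.Agent.L0h65.SB.Und E w) u v := by
  unfold StronglyBiconnected
  refine and_congr Iff.rfl (forall_congr' fun w => bi_iff E hloop w)

/-- monotonicity in the arc set -/
lemma sb_mono [DecidableEq V] {E F : Finset (V × V)} (hloop : ∀ v, (v, v) ∉ E) (hFE : F ⊆ E)
    (h : StronglyBiconnected F) : StronglyBiconnected E := by
  have hF : ∀ v, (v, v) ∉ F := fun v hv => hloop v (hFE hv)
  rw [sb_iff F hF] at h
  rw [sb_iff E hloop]
  refine ⟨fun u v => Pool.Agent.L0h65.SB.rtg_mono (fun a b hab => hFE hab) (h.1 u v), ?_⟩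
  intro w u v hu hv
  refine Pool.Agent.L0h65.SB.rtg_mono ?_ (h.2 w u v hu hv)
  rintro a b ⟨hab, h1, h2⟩
  exact ⟨hab.imp (fun x => hFE x) (fun x => hFE x), h1, h2⟩

lemma bound [Fintype V] [DecidableEq V] {E : Finset (V × V)} (hloop : ∀ v, (v, v) ∉ E)
    (h : MinimalStronglyBiconnected E) (h3 : 3 ≤ Fintype.card V) :
    E.card + 3 ≤ 2 * Fintype.card V := by
  obtain ⟨h1, h2⟩ := h
  have h1' := (sb_iff E hloop).mp h1
  obtain ⟨F, hF, hcard⟩ := Pool.Agent.L0h65.SB.spanning hloop h1'.1 h1'.2 h3
  have hFloop : ∀ v, (v, v) ∉ F := fun v hv => hloop v (hF.sub hv)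
  have hFsb : StronglyBiconnected F := by
    rw [sb_iff F hFloop]
    exact ⟨fun u v => hF.strong u (Finset.mem_univ _) v (Finset.mem_univ _),
      fun w u v hu hv => hF.bi w u (Finset.mem_univ _) v (Finset.mem_univ _) hu hv⟩
  have hEF : E = F := by
    by_contra hne
    have : ∃ e ∈ E, e ∉ F := by
      by_contra hc
      push Not at hc
      exact hne (Finset.Subset.antisymm hc hF.sub)
    obtain ⟨e, heE, heF⟩ := this
    apply h2 e heE
    refine sb_mono (fun v hv => hloop v (Finset.mem_of_mem_erase hv)) ?_ hFsb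
    intro f hf
    refine Finset.mem_erase.mpr ⟨?_, hF.sub hf⟩
    rintro rfl
    exact heF hf
  rw [hEF]
  exact hcard

lemma bound2 [Fintype V] [DecidableEq V] {E : Finset (V × V)} (hloop : ∀ v, (v, v) ∉ E)
    (h : MinimalStronglyBiconnected E) : E.card ≤ 2 * Fintype.card V := by
  by_cases h3 : 3 ≤ Fintype.card V
  · have := bound hloop h h3
    omega
  · have h1 : E ⊆ (Finset.univ : Finset V).offDiag := by
      rintro ⟨a, b⟩ hab
      simp only [Finset.mem_offDiag, Finset.mem_univ, true_and]
      rintro rfl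
      exact hloop _ hab
    have h2 := Finset.card_le_card h1
    rw [Finset.offDiag_card, Finset.card_univ] at h2
    interval_cases Fintype.card V <;> omega

/-- the extremal digraph: `0 → 1`, and `1 → x → 0` for all `x ≥ 2` -/
def ext (n : ℕ) : Finset (Fin n × Fin n) :=
  Finset.univ.filter (fun p => (p.1.val = 0 ∧ p.2.val = 1) ∨ (p.1.val = 1 ∧ 2 ≤ p.2.val) ∨
    (2 ≤ p.1.val ∧ p.2.val = 0))

lemma mem_ext {n : ℕ} (a b : Fin n) : (a, b) ∈ ext n ↔
    (a.val = 0 ∧ b.val = 1) ∨ (a.val = 1 ∧ 2 ≤ b.val) ∨ (2 ≤ a.val ∧ b.val = 0) := by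
  simp [ext]

lemma ext_loop {n : ℕ} (v : Fin n) : (v, v) ∉ ext n := by
  rw [mem_ext]
  omega

lemma hub [DecidableEq V] {E : Finset (V × V)} {w h : V} (hw : h ≠ w)
    (hh : ∀ v, v ≠ w → v ≠ h → (v, h) ∈ E ∨ (h, v) ∈ E) :
    ∀ u v, u ≠ w → v ≠ w → ReflTransGen (Pool.Agent.L0h65.SB.Und E w) u v := by
  have key : ∀ u, u ≠ w → ReflTransGen (Pool.Agent.L0h65.SB.Und E w) u h := by
    intro u hu
    by_cases huh : u = h
    · rw [huh]
    · exact .single ⟨hh u hu huh, hu, hw⟩
  intro u v hu hv
  exact (key u hu).trans (Pool.Agent.L0h65.SB.und_rsymm (key v hv))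

lemma ext_sb {n : ℕ} (hn : 3 ≤ n) : StronglyBiconnected (ext n) := by
  rw [sb_iff _ ext_loop]
  constructor
  · set z : Fin n := ⟨0, by omega⟩
    set o : Fin n := ⟨1, by omega⟩
    have h01 : ReflTransGen (Pool.Agent.L0h65.SB.Arc (ext n)) z o := .single ((mem_ext _ _).mpr (Or.inl ⟨rfl, rfl⟩))
    have ho2 : ∀ x : Fin n, 2 ≤ x.val → ReflTransGen (Pool.Agent.L0h65.SB.Arc (ext n)) o x := fun x hx =>
      .single ((mem_ext _ _).mpr (Or.inr (Or.inl ⟨rfl, hx⟩)))
    have h2z : ∀ x : Fin n, 2 ≤ x.val → ReflTransGen (Pool.Agent.L0h65.SB.Arc (ext n)) x z := fun x hx =>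
      .single ((mem_ext _ _).mpr (Or.inr (Or.inr ⟨hx, rfl⟩)))
    have toz : ∀ x : Fin n, ReflTransGen (Pool.Agent.L0h65.SB.Arc (ext n)) x z := by
      intro x
      rcases Nat.lt_or_ge x.val 2 with h | h
      · have : x = z ∨ x = o := by
          rcases Nat.lt_or_ge x.val 1 with h1 | h1
          · left; exact Fin.ext (by simp [z]; omega)
          · right; exact Fin.ext (by simp [o]; omega)
        rcases this with rfl | rfl
        · exact .refl
        · exact (ho2 ⟨2, by omega⟩ le_rfl).trans (h2z ⟨2, by omega⟩ le_rfl)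
      · exact h2z x h
    have fromz : ∀ x : Fin n, ReflTransGen (Pool.Agent.L0h65.SB.Arc (ext n)) z x := by
      intro x
      rcases Nat.lt_or_ge x.val 2 with h | h
      · have : x = z ∨ x = o := by
          rcases Nat.lt_or_ge x.val 1 with h1 | h1
          · left; exact Fin.ext (by simp [z]; omega)
          · right; exact Fin.ext (by simp [o]; omega)
        rcases this with rfl | rfl
        · exact .refl
        · exact h01
      · exact h01.trans (ho2 x h)
    intro u v
    exact (toz u).trans (fromz v)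
  · intro w
    by_cases hw : w.val = 0
    · refine hub (h := ⟨1, by omega⟩) ?_ ?_
      · intro e
        rw [← e] at hw
        simp at hw
      · intro v hv hv1
        right
        rw [mem_ext]
        have h1 : v.val ≠ 0 := fun e => hv (Fin.ext (e.trans hw.symm))
        have h2 : v.val ≠ 1 := fun e => hv1 (Fin.ext e)
        right; left
        exact ⟨rfl, by omega⟩
    · refine hub (h := ⟨0, by omega⟩) ?_ ?_
      · intro e
        rw [← e] at hw
        simp at hw
      · intro v hv hv1
        have h1 : v.val ≠ 0 := fun e => hv1 (Fin.ext e)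
        rcases Nat.lt_or_ge v.val 2 with h | h
        · right
          rw [mem_ext]
          left
          exact ⟨rfl, by omega⟩
        · left
          rw [mem_ext]
          right; right
          exact ⟨h, rfl⟩

lemma no_out {E : Finset (V × V)} {a b : V} (hab : a ≠ b) (h : ∀ c, (a, c) ∉ E) :
    ¬ StronglyConnected E := by
  intro hs
  rcases ReflTransGen.cases_head (hs a b) with h1 | ⟨c, hc, _⟩
  · exact hab h1
  · exact h c hc

lemma no_in {E : Finset (V × V)} {a b : V} (hab : a ≠ b) (h : ∀ c, (c, b) ∉ E) :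
    ¬ StronglyConnected E := by
  intro hs
  rcases ReflTransGen.cases_tail (hs a b) with h1 | ⟨c, _, hc⟩
  · exact hab h1.symm
  · exact h c hc

lemma ext_min {n : ℕ} (hn : 3 ≤ n) : MinimalStronglyBiconnected (ext n) := by
  refine ⟨ext_sb hn, ?_⟩
  rintro ⟨a, b⟩ hab hsb
  have hs := hsb.1
  rw [mem_ext] at hab
  have hne : a ≠ b := by
    rintro rfl
    omega
  rcases hab with ⟨ha, hb⟩ | ⟨ha, hb⟩ | ⟨ha, hb⟩
  · refine no_out hne ?_ hs
    intro c hc
    have h1 := Finset.mem_of_mem_erase hc
    have h2 := Finset.ne_of_mem_erase hc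
    rw [mem_ext] at h1
    apply h2
    have : c.val = 1 := by omega
    have : c = b := Fin.ext (this.trans hb.symm)
    rw [this]
  · refine no_in hne ?_ hs
    intro c hc
    have h1 := Finset.mem_of_mem_erase hc
    have h2 := Finset.ne_of_mem_erase hc
    rw [mem_ext] at h1
    apply h2
    have : c.val = 1 := by omega
    have : c = a := Fin.ext (this.trans ha.symm)
    rw [this]
  · refine no_out hne ?_ hs
    intro c hc
    have h1 := Finset.mem_of_mem_erase hc
    have h2 := Finset.ne_of_mem_erase hc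
    rw [mem_ext] at h1
    apply h2
    have : c.val = 0 := by omega
    have : c = b := Fin.ext (this.trans hb.symm)
    rw [this]

lemma ext_card {n : ℕ} (hn : 3 ≤ n) : (ext n).card = 2 * n - 3 := by
  obtain ⟨m, rfl⟩ : ∃ m, n = m + 2 := ⟨n - 2, by omega⟩
  -- parametrise
  have h : ext (m + 2) = insert ((0 : Fin (m + 2)), (1 : Fin (m + 2)))
      ((Finset.univ : Finset (Fin m)).image (fun i => ((1 : Fin (m + 2)), i.succ.succ)) ∪
        (Finset.univ : Finset (Fin m)).image (fun i => (i.succ.succ, (0 : Fin (m + 2))))) := by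
    ext ⟨a, b⟩
    rw [mem_ext]
    simp only [Finset.mem_insert, Finset.mem_union, Finset.mem_image, Finset.mem_univ, true_and,
      Prod.mk.injEq]
    constructor
    · rintro (⟨h1, h2⟩ | ⟨h1, h2⟩ | ⟨h1, h2⟩)
      · left
        exact ⟨Fin.ext h1, Fin.ext h2⟩
      · right; left
        refine ⟨⟨b.val - 2, by omega⟩, Fin.ext h1.symm, Fin.ext ?_⟩
        simp
        omega
      · right; right
        refine ⟨⟨a.val - 2, by omega⟩, Fin.ext ?_, Fin.ext h2.symm⟩
        simp
        omega
    · rintro (⟨rfl, rfl⟩ | ⟨i, rfl, rfl⟩ | ⟨i, rfl, rfl⟩)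
      · left
        simp
      · right; left
        simp
      · right; right
        simp
  rw [h, Finset.card_insert_of_notMem, Finset.card_union_of_disjoint, Finset.card_image_of_injective,
    Finset.card_image_of_injective, Finset.card_univ, Fintype.card_fin]
  · omega
  · intro i j hij
    simpa using hij
  · intro i j hij
    simpa using hij
  · rw [Finset.disjoint_left]
    intro p hp hq
    simp only [Finset.mem_image, Finset.mem_univ, true_and] at hp hq
    obtain ⟨i, rfl⟩ := hp
    obtain ⟨j, hj⟩ := hq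
    have := congrArg (fun p : Fin (m + 2) × Fin (m + 2) => p.2.val) hj
    simp at this
  · simp only [Finset.mem_union, Finset.mem_image, Finset.mem_univ, true_and, not_or, not_exists]
    constructor
    · intro i hi
      have := congrArg (fun p : Fin (m + 2) × Fin (m + 2) => p.1.val) hi
      simp at this
    · intro i hi
      have := congrArg (fun p : Fin (m + 2) × Fin (m + 2) => p.1.val) hi
      simp at this

/-- (1) Every minimal strongly biconnected digraph on `n` vertices has at most `2n` arcs, and at most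
`2n - 3` arcs when `n ≥ 3`. (2) For every `n ≥ 3` the largest number of arcs of a minimal strongly
biconnected digraph on `n` vertices is exactly `2n - 3`. -/
theorem result :
    (∀ (V : Type) [Fintype V] [DecidableEq V] (E : Finset (V × V)), (∀ v, (v, v) ∉ E) →
      MinimalStronglyBiconnected E →
        E.card ≤ 2 * Fintype.card V ∧ (3 ≤ Fintype.card V → E.card ≤ 2 * Fintype.card V - 3)) ∧
    (∀ n : ℕ, 3 ≤ n → IsGreatest {m : ℕ | ∃ E : Finset (Fin n × Fin n), (∀ v, (v, v) ∉ E) ∧
      MinimalStronglyBiconnected E ∧ E.card = m} (2 * n - 3)) := by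
  refine ⟨?_, ?_⟩
  · intro V _ _ E hloop h
    refine ⟨bound2 hloop h, fun h3 => ?_⟩
    have := bound hloop h h3
    omega
  · intro n hn
    refine ⟨⟨ext n, ext_loop, ext_min hn, ext_card hn⟩, ?_⟩
    rintro m ⟨E, hloop, hE, rfl⟩
    have := bound hloop hE (by rw [Fintype.card_fin]; exact hn)
    rw [Fintype.card_fin] at this
    omega

end Pool.Agent.Results.MP_5e4462_co.ExactMaximum
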